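import Mathlib

set_option autoImplicit false

namespace Pool.Agent.H.MP_24f62a_co

open Finset SimpleGraph

lemma one_cycle {V : Type} (F : SimpleGraph V) (hF : F.IsAcyclic) (x y : V) (G : SimpleGraph V)
    (hG : G = F ⊔ edge x y) {u v : V} (c : G.Walk u u) (d : G.Walk v v) (hc : c.IsCycle)
    (hd : d.IsCycle) (f : Sym2 V) (hf : f ∈ c.edges) : f ∈ d.edges := by
  by_contra hfd
  induction f using Sym2.ind with
  | _ a b =>
    have hle : G.deleteEdges {s(a, b)} ≤ F.deleteEdges {s(a, b)} ⊔ edge x y := by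
      intro p q h
      rw [deleteEdges_adj, hG, sup_adj] at h
      rw [sup_adj, deleteEdges_adj]
      rcases h.1 with h1 | h1
      · exact Or.inl ⟨h1, h.2⟩
      · exact Or.inr h1
    have hd' : ¬ (G.deleteEdges {s(a, b)}).IsAcyclic := fun h =>
      h _ (Walk.IsCycle.toDeleteEdges G {s(a, b)} hd fun e he h' => hfd (by
        rw [Set.mem_singleton_iff] at h'
        rw [← h']
        exact he))
    have hK : (F.deleteEdges {s(a, b)}).Reachable x y := by
      by_contra h
      exact hd' ((IsAcyclic.sup_edge_of_not_reachable h (hF.anti (deleteEdges_le _))).anti hle)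
    obtain ⟨h1, ⟨w⟩⟩ := adj_and_reachable_delete_edges_iff_exists_cycle.mpr ⟨u, c, hc, hf⟩
    have h2 : ∀ {p q : V} (_ : (G.deleteEdges {s(a, b)}).Walk p q),
        (F.deleteEdges {s(a, b)}).Reachable p q := by
      intro p q w
      induction w with
      | nil => exact Reachable.refl _
      | cons h _ ih =>
        refine Reachable.trans ?_ ih
        rcases (sup_adj _ _ _ _).mp (hle h) with h | h
        · exact h.reachable
        · rw [edge_adj] at h
          rcases h.1 with ⟨rfl, rfl⟩ | ⟨rfl, rfl⟩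
          · exact hK
          · exact hK.symm
    by_cases hab : F.Adj a b
    · exact isAcyclic_iff_forall_isBridge.mp hF (e := s(a, b)) hab (h2 w)
    · refine hd' (hF.anti fun p q h => ?_)
      rw [deleteEdges_adj, hG, sup_adj] at h
      rcases h.1 with h3 | h3
      · exact h3
      · exfalso
        rw [hG, sup_adj] at h1
        have h4 := h1.resolve_left hab
        rw [edge_adj] at h3 h4
        apply h.2
        rw [Set.mem_singleton_iff, Sym2.eq_iff]
        rcases h3.1 with ⟨rfl, rfl⟩ | ⟨rfl, rfl⟩ <;> rcases h4.1 with ⟨rfl, rfl⟩ | ⟨rfl, rfl⟩ <;> simp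

variable {n : ℕ}

/-- size of the class of `v` -/
def sz (l : Fin n → Fin n) (v : Fin n) : ℕ := (univ.filter fun w => l w = l v).card

def merge (l : Fin n → Fin n) (u v : Fin n) : Fin n → Fin n := fun w => if l w = l v then l u else l w

lemma sz_merge (l : Fin n → Fin n) (u v : Fin n) (h : l u ≠ l v) (w : Fin n) :
    sz (merge l u v) w = if l w = l u ∨ l w = l v then sz l u + sz l v else sz l w := by
  unfold sz
  split_ifs with hw
  · rw [← card_union_of_disjoint]
    · congr 1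
      ext t
      simp only [merge, mem_filter, mem_univ, true_and, mem_union]
      rcases hw with hw | hw <;> by_cases ht : l t = l v <;> simp [hw, ht, h, h.symm]
    · rw [disjoint_filter]
      intro t _ h1 h2
      exact h (h1.symm.trans h2)
  · push Not at hw
    congr 1
    ext t
    simp only [merge, mem_filter, mem_univ, true_and, if_neg hw.2]
    by_cases ht : l t = l v
    · simp [ht, hw.1.symm, hw.2.symm]
    · simp [ht]

lemma sum_merge (l : Fin n → Fin n) (u v : Fin n) (h : l u ≠ l v) (φ : ℕ → ℝ) :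
    ∑ w, φ (sz (merge l u v) w) = ∑ w, φ (sz l w) +
      sz l u * (φ (sz l u + sz l v) - φ (sz l u)) + sz l v * (φ (sz l u + sz l v) - φ (sz l v)) := by
  have e : ∀ w, φ (sz (merge l u v) w) = φ (sz l w) +
      (if l w = l u then φ (sz l u + sz l v) - φ (sz l u) else 0) +
      (if l w = l v then φ (sz l u + sz l v) - φ (sz l v) else 0) := by
    intro w
    rw [sz_merge l u v h]
    by_cases h1 : l w = l u
    · have : sz l w = sz l u := by simp only [sz, h1]
      simp [h1, h, this]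
    · by_cases h2 : l w = l v
      · have : sz l w = sz l v := by simp only [sz, h2]
        simp [h2, h.symm, this]
      · simp [h1, h2]
  simp only [e, sum_add_distrib, ← sum_filter, sum_const, nsmul_eq_mul]
  rfl

lemma card_same (l : Fin n → Fin n) :
    ((univ : Finset (Fin n × Fin n)).filter fun p => l p.2 = l p.1).card = ∑ w, sz l w := by
  rw [card_filter, ← univ_product_univ, sum_product]
  simp only [sz, card_filter]

lemma exists_cheap (l : Fin n → Fin n) (Fr : Finset (Sym2 (Fin n))) (y : ℝ) (hy : 0 < y)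
    (hn : 6 * n < Fr.card) (hF : y ^ 8 * n ^ 2 = Fr.card)
    (h2 : ∑ w, (sz l w : ℝ) ≤ 3 * n) (h3 : (∑ w, (sz l w : ℝ) ^ 2) * y ≤ n) :
    ∃ u v : Fin n, s(u, v) ∈ Fr ∧ l u ≠ l v ∧
      (sz l u : ℝ) * sz l v * (sz l u + sz l v) * y ^ 9 ≤ 12 := by
  set P := (univ : Finset (Fin n × Fin n)).filter fun p => s(p.1, p.2) ∈ Fr ∧ l p.2 ≠ l p.1 with hP
  have a1 : Fr.card ≤ P.card + ∑ w, sz l w := by
    rw [← card_same]
    refine le_trans ?_ (card_union_le _ _)
    refine le_trans (card_le_card ?_) (card_image_le (f := fun p : Fin n × Fin n => s(p.1, p.2)))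
    intro e he
    induction e using Sym2.ind with
    | _ a b =>
      refine mem_image.mpr ⟨(a, b), ?_, rfl⟩
      by_cases h : l b = l a
      · exact mem_union_right _ (by simp [h])
      · exact mem_union_left _ (by simp [hP, h, he])
  have a2 : (Fr.card : ℝ) ≤ P.card + ∑ w, (sz l w : ℝ) := by exact_mod_cast a1
  have a3 : (6 * n : ℝ) < Fr.card := by exact_mod_cast hn
  have a4 : (0 : ℝ) ≤ n := Nat.cast_nonneg _
  have hne : P.Nonempty := by
    rw [← card_pos]
    have : (0 : ℝ) < P.card := by linarith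
    exact_mod_cast this
  have a5 : ∑ p ∈ P, (sz l p.1 : ℝ) * sz l p.2 * (sz l p.1 + sz l p.2) * y ^ 9 ≤ ∑ _p ∈ P, (12 : ℝ) := by
    calc ∑ p ∈ P, (sz l p.1 : ℝ) * sz l p.2 * (sz l p.1 + sz l p.2) * y ^ 9
        ≤ ∑ p : Fin n × Fin n, (sz l p.1 : ℝ) * sz l p.2 * (sz l p.1 + sz l p.2) * y ^ 9 :=
          sum_le_sum_of_subset_of_nonneg (subset_univ _) fun _ _ _ => by positivity
      _ = 2 * ((∑ w, (sz l w : ℝ) ^ 2) * y) * (∑ w, (sz l w : ℝ)) * y ^ 8 := by
          rw [← sum_mul, ← univ_product_univ, sum_product]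
          have e : ∑ a : Fin n, ∑ b : Fin n, (sz l a : ℝ) * sz l b * (sz l a + sz l b) =
              (∑ w, (sz l w : ℝ) ^ 2) * (∑ w, (sz l w : ℝ)) +
                (∑ w, (sz l w : ℝ)) * (∑ w, (sz l w : ℝ) ^ 2) := by
            rw [sum_mul_sum, sum_mul_sum, ← sum_add_distrib]
            refine sum_congr rfl fun a _ => ?_
            rw [← sum_add_distrib]
            refine sum_congr rfl fun b _ => ?_
            ring
          rw [e]
          ring
      _ ≤ 2 * n * (3 * n) * y ^ 8 := by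
          have : 0 ≤ ∑ w, (sz l w : ℝ) := sum_nonneg fun _ _ => Nat.cast_nonneg _
          gcongr
      _ = 6 * Fr.card := by rw [← hF]; ring
      _ ≤ _ := by
          rw [sum_const, nsmul_eq_mul]
          linarith
  obtain ⟨p, hp, h⟩ := exists_le_of_sum_le hne a5
  rw [hP, mem_filter] at hp
  exact ⟨p.1, p.2, hp.2.1, hp.2.2.symm, h⟩

lemma step_ineq (N y z a b S2 S3 : ℝ) (hN : 0 < N) (hy : 0 < y) (hz : 0 < z) (ha : 0 ≤ a)
    (hb : 0 ≤ b) (h : z ^ 8 * N ^ 2 + 288 * N ≤ y ^ 8 * N ^ 2) (hc : a * b * (a + b) * y ^ 9 ≤ 12)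
    (h2 : S2 ≤ N * (3 - 2 * y ^ 2)) (h3 : S3 * y ≤ N) :
    S2 + 2 * (a * b) ≤ N * (3 - 2 * z ^ 2) ∧ (S3 + 3 * (a * b * (a + b))) * z ≤ N := by
  have h0 : 288 ≤ (y ^ 8 - z ^ 8) * N := by
    have : N * 288 ≤ N * ((y ^ 8 - z ^ 8) * N) := by nlinarith
    exact le_of_mul_le_mul_left this hN
  have hzy : z ≤ y := by
    by_contra hc
    have := pow_le_pow_left₀ hy.le (not_le.mp hc).le 8
    nlinarith
  have p1 : y ^ 8 - z ^ 8 ≤ 4 * y ^ 6 * (y ^ 2 - z ^ 2) := by
    have q1 : z ^ 2 ≤ y ^ 2 := pow_le_pow_left₀ hz.le hzy 2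
    have q2 : z ^ 4 ≤ y ^ 4 := pow_le_pow_left₀ hz.le hzy 4
    have e : y ^ 8 - z ^ 8 = (y ^ 4 + z ^ 4) * (y ^ 2 + z ^ 2) * (y ^ 2 - z ^ 2) := by ring
    rw [e]
    refine mul_le_mul_of_nonneg_right ?_ (by linarith)
    calc (y ^ 4 + z ^ 4) * (y ^ 2 + z ^ 2) ≤ (y ^ 4 + y ^ 4) * (y ^ 2 + y ^ 2) := by gcongr
      _ = 4 * y ^ 6 := by ring
  have p2 : y ^ 2 - z ^ 2 ≤ 2 * y * (y - z) := by nlinarith
  have p3 : 72 ≤ y ^ 6 * ((y ^ 2 - z ^ 2) * N) := by
    have := mul_le_mul_of_nonneg_right p1 hN.le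
    nlinarith
  have p4 : 36 ≤ y ^ 7 * ((y - z) * N) := by
    have := mul_le_mul_of_nonneg_left (mul_le_mul_of_nonneg_right p2 hN.le) (pow_pos hy 6).le
    nlinarith
  constructor
  · have q1 : y ^ 6 * (a * b) ≤ 72 := by
      by_contra hq
      have r1 : (72 : ℝ) ^ 3 ≤ (y ^ 6 * (a * b)) ^ 3 :=
        pow_le_pow_left₀ (by norm_num) (not_le.mp hq).le 3
      have r2 : (a * b * (a + b) * y ^ 9) ^ 2 ≤ 12 ^ 2 := pow_le_pow_left₀ (by positivity) hc 2
      have r3 : a * b ≤ (a + b) ^ 2 := by nlinarith [mul_nonneg ha hb]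
      have r4 : (y ^ 6 * (a * b)) ^ 3 ≤ (a * b * (a + b) * y ^ 9) ^ 2 := by
        have e1 : (y ^ 6 * (a * b)) ^ 3 = (a * b * y ^ 9) ^ 2 * (a * b) := by ring
        have e2 : (a * b * (a + b) * y ^ 9) ^ 2 = (a * b * y ^ 9) ^ 2 * (a + b) ^ 2 := by ring
        rw [e1, e2]
        exact mul_le_mul_of_nonneg_left r3 (sq_nonneg _)
      norm_num at r1 r2
      linarith
    have q2 : a * b ≤ (y ^ 2 - z ^ 2) * N := le_of_mul_le_mul_left (q1.trans p3) (pow_pos hy 6)
    nlinarith
  · have q1 : y ^ 9 * (3 * (a * b * (a + b))) ≤ y ^ 9 * 0 + 36 := by nlinarith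
    have q2 : y ^ 7 * (3 * (a * b * (a + b)) * y ^ 2) ≤ y ^ 7 * ((y - z) * N) := by nlinarith
    have q3 := le_of_mul_le_mul_left q2 (pow_pos hy 7)
    have q4 : 0 ≤ 3 * (a * b * (a + b)) := by positivity
    have q5 : 3 * (a * b * (a + b)) * (z * y) ≤ 3 * (a * b * (a + b)) * y ^ 2 :=
      mul_le_mul_of_nonneg_left (by nlinarith) q4
    have q6 : S3 * y * z ≤ N * z := mul_le_mul_of_nonneg_right h3 hz.le
    have q7 : y * ((S3 + 3 * (a * b * (a + b))) * z) ≤ y * N := by nlinarith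
    exact le_of_mul_le_mul_left q7 hy

end Pool.Agent.H.MP_24f62a_co
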