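import Pool.Agent.H.MP_24f62a_co.Pot

set_option autoImplicit false

namespace Pool.Agent.H.MP_24f62a_co

open Finset SimpleGraph

variable {n : ℕ}

lemma from_insert (A : Finset (Sym2 (Fin n))) (x y : Fin n) :
    fromEdgeSet ((insert s(x, y) A : Finset (Sym2 (Fin n))) : Set (Sym2 (Fin n))) =
      fromEdgeSet (A : Set (Sym2 (Fin n))) ⊔ edge x y := by
  rw [coe_insert, Set.insert_eq, fromEdgeSet_union, sup_comm]
  rfl

lemma win (E : Finset (Sym2 (Fin n))) (hE : E.card ≤ n ^ 2) (b : ℕ) (hb : 288 * n ≤ b) :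
    ∃ S : Set (Finset (Sym2 (Fin n)) × Finset (Sym2 (Fin n))), (∅, ∅) ∈ S ∧ ∀ p ∈ S,
      (E \ (p.1 ∪ p.2) = ∅ → ∃ (F : SimpleGraph (Fin n)), F.IsAcyclic ∧
        (fromEdgeSet (p.1 : Set (Sym2 (Fin n))) = F ∨
          ∃ x y, fromEdgeSet (p.1 : Set (Sym2 (Fin n))) = F ⊔ edge x y)) ∧
      (E \ (p.1 ∪ p.2) ≠ ∅ → ∃ e ∈ E \ (p.1 ∪ p.2), ∀ T ⊆ (E \ (p.1 ∪ p.2)).erase e,
        min b ((E \ (p.1 ∪ p.2)).erase e).card ≤ T.card → (insert e p.1, p.2 ∪ T) ∈ S) := by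
  refine ⟨{p | (E \ (p.1 ∪ p.2) = ∅ ∧ ∃ (F : SimpleGraph (Fin n)), F.IsAcyclic ∧
      ∃ x y, fromEdgeSet (p.1 : Set (Sym2 (Fin n))) = F ⊔ edge x y) ∨
      ((fromEdgeSet (p.1 : Set (Sym2 (Fin n)))).IsAcyclic ∧ ∃ l : Fin n → Fin n,
        (∀ x y, s(x, y) ∈ p.1 → l x = l y) ∧ ∀ y : ℝ, 0 < y →
          y ^ 8 * n ^ 2 = (E \ (p.1 ∪ p.2)).card →
          ∑ w, (sz l w : ℝ) ≤ n * (3 - 2 * y ^ 2) ∧ (∑ w, (sz l w : ℝ) ^ 2) * y ≤ n)},
    Or.inr ⟨by simp, id, by simp, fun y hy h => ?_⟩, ?_⟩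
  · have e : ∀ w : Fin n, sz id w = 1 := by
      intro w
      unfold sz
      rw [card_eq_one]
      exact ⟨w, by ext t; simp⟩
    simp only [e, Nat.cast_one, one_pow, sum_const, card_univ, Fintype.card_fin, nsmul_eq_mul,
      mul_one]
    rcases Nat.eq_zero_or_pos n with rfl | hn
    · simp
    have hn' : (0 : ℝ) < n := by exact_mod_cast hn
    have h1 : y ≤ 1 := by
      by_contra hc
      have a1 : 1 < y ^ 8 := one_lt_pow₀ (not_le.mp hc) (by norm_num)
      have a2 : ((E \ ((∅ : Finset (Sym2 (Fin n))) ∪ ∅)).card : ℝ) ≤ n ^ 2 := by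
        have := (card_le_card (sdiff_subset (s := E) (t := (∅ : Finset (Sym2 (Fin n))) ∪ ∅))).trans hE
        exact_mod_cast this
      have a3 : (n : ℝ) ^ 2 < y ^ 8 * n ^ 2 := lt_mul_of_one_lt_left (by positivity) a1
      exact absurd (h ▸ a3) (not_lt.mpr a2)
    have h2 : y ^ 2 ≤ 1 := pow_le_one₀ hy.le h1
    constructor <;> nlinarith
  rintro ⟨A, B⟩ hp
  have hstep : ∀ (e : Sym2 (Fin n)) (T : Finset (Sym2 (Fin n))),
      E \ (insert e A ∪ (B ∪ T)) = (E \ (A ∪ B)).erase e \ T := by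
    intro e T
    rw [← sdiff_insert, sdiff_sdiff_left, sup_eq_union, insert_union, insert_union, union_assoc]
  rcases hp with ⟨h0, F, hF, hxy⟩ | ⟨hA, l, hl, hy⟩
  · exact ⟨fun _ => ⟨F, hF, Or.inr hxy⟩, fun h => absurd h0 h⟩
  refine ⟨fun _ => ⟨_, hA, Or.inl rfl⟩, fun hne => ?_⟩
  simp only at hA hl hy hne ⊢
  by_cases hs : (E \ (A ∪ B)).card ≤ b + 1
  · obtain ⟨e, he⟩ := nonempty_iff_ne_empty.mpr hne
    refine ⟨e, he, fun T hT hc => Or.inl ⟨?_, _, hA, ?_⟩⟩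
    · show E \ (insert e A ∪ (B ∪ T)) = ∅
      rw [hstep, sdiff_eq_empty_iff_subset]
      have := card_erase_of_mem he
      exact (eq_of_subset_of_card_le hT (by omega)).ge
    · induction e using Sym2.ind with
      | _ x y => exact ⟨x, y, from_insert A x y⟩
  · have hn : 0 < n := by
      rcases Nat.eq_zero_or_pos n with rfl | hn
      · have := (card_le_card (sdiff_subset (s := E) (t := A ∪ B))).trans hE
        omega
      · exact hn
    have hn' : (0 : ℝ) < n := by exact_mod_cast hn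
    have hF : (0 : ℝ) < ((E \ (A ∪ B)).card : ℝ) / n ^ 2 := by
      have : (0 : ℝ) < (E \ (A ∪ B)).card := by
        have : 0 < (E \ (A ∪ B)).card := by omega
        exact_mod_cast this
      positivity
    obtain ⟨y, y0, y1⟩ : ∃ y : ℝ, 0 < y ∧ y ^ 8 * n ^ 2 = (E \ (A ∪ B)).card := by
      refine ⟨(((E \ (A ∪ B)).card : ℝ) / n ^ 2) ^ (((8 : ℕ) : ℝ)⁻¹), Real.rpow_pos_of_pos hF _, ?_⟩
      rw [Real.rpow_inv_natCast_pow hF.le (by norm_num)]
      field_simp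
    obtain ⟨h2, h3⟩ := hy y y0 y1
    obtain ⟨u, v, he, huv, hc⟩ := exists_cheap l (E \ (A ∪ B)) y y0 (by omega) y1
      (by nlinarith [sq_nonneg y]) h3
    refine ⟨s(u, v), he, fun T hT hcard => Or.inr ⟨?_, merge l u v, ?_, fun z z0 z1 => ?_⟩⟩
    · show (fromEdgeSet ((insert s(u, v) A : Finset (Sym2 (Fin n))) : Set (Sym2 (Fin n)))).IsAcyclic
      rw [from_insert]
      refine IsAcyclic.sup_edge_of_not_reachable ?_ hA
      rintro ⟨w⟩
      apply huv
      clear huv he hc hT hcard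
      induction w with
      | nil => rfl
      | cons h _ ih => exact (hl _ _ ((fromEdgeSet_adj _).mp h).1).trans ih
    · intro x t h
      rcases mem_insert.mp h with h | h
      · rcases Sym2.eq_iff.mp h with ⟨rfl, rfl⟩ | ⟨rfl, rfl⟩ <;> simp [merge]
      · simp only [merge, hl x t h]
    · have z2 : z ^ 8 * n ^ 2 = (((E \ (A ∪ B)).erase s(u, v) \ T).card : ℝ) := by
        rw [← hstep]
        exact z1
      have c1 := card_erase_of_mem he
      have c2 := card_sdiff_of_subset hT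
      have c3 := card_le_card hT
      have c4 : ((E \ (A ∪ B)).erase s(u, v) \ T).card + 288 * n ≤ (E \ (A ∪ B)).card := by omega
      have c5 : z ^ 8 * n ^ 2 + 288 * n ≤ y ^ 8 * n ^ 2 := by
        rw [z2, y1]
        exact_mod_cast c4
      obtain ⟨r1, r2⟩ := step_ineq n y z (sz l u) (sz l v) _ _ hn' y0 z0 (Nat.cast_nonneg _)
        (Nat.cast_nonneg _) c5 hc h2 h3
      rw [sum_merge l u v huv (fun k => (k : ℝ)), sum_merge l u v huv (fun k => (k : ℝ) ^ 2)]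
      push_cast
      constructor
      · refine le_trans (le_of_eq ?_) r1
        ring
      · refine le_trans (le_of_eq ?_) r2
        ring

end Pool.Agent.H.MP_24f62a_co
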